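import Mathlib
import Pool.Agent.H.MP_59918e_co.Main

set_option autoImplicit false

namespace Pool.Agent.Results.MP_59918e_co.Counter

open Pool.Agent.H.MP_59918e_co in
theorem result :
    ∃ (n : ℕ) (G : SimpleGraph (Fin n)),
      (∃ φ : Fin n → ℝ, (∀ v, 0 ≤ φ v) ∧ ∀ S : Finset (Fin n),
        Maximal (fun T : Finset (Fin n) => G.IsIndepSet (T : Set (Fin n))) S ↔
          ∑ v ∈ S, φ v = 1) ∧
      ¬ ∃ 𝒞 𝒮 : Set (Finset (Fin n)),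
        (∀ C ∈ 𝒞, Maximal (fun T : Finset (Fin n) => G.IsClique (T : Set (Fin n))) C) ∧
        (∀ S ∈ 𝒮, Maximal (fun T : Finset (Fin n) => G.IsIndepSet (T : Set (Fin n))) S) ∧
        (∀ u v, G.Adj u v → ∃ C ∈ 𝒞, u ∈ C ∧ v ∈ C) ∧
        (∀ u v, u ≠ v → ¬ G.Adj u v → ∃ S ∈ 𝒮, u ∈ S ∧ v ∈ S) ∧
        (∀ C ∈ 𝒞, ∀ S ∈ 𝒮, (C ∩ S).Nonempty) := by
  refine ⟨14, G, ⟨fun v => (w v.val : ℝ) / 154, fun v => by positivity, fun S => ?_⟩, ?_⟩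
  · rw [equi, ← Finset.sum_div, div_eq_one_iff_eq (by norm_num)]
    exact_mod_cast Iff.rfl
  · rintro ⟨𝒞, 𝒮, h1, h2, h3, h4, h5⟩
    obtain ⟨C, hC, -⟩ := h3 0 5 edge
    obtain ⟨x, hx⟩ := clique_miss C (h1 C hC).1
    obtain ⟨i, j, hij, hn, hk⟩ := pair x
    obtain ⟨S, hS, hi, hj⟩ := h4 i j hij hn
    obtain ⟨k, hk'⟩ := h5 C hC S hS
    rw [Finset.mem_inter] at hk'
    have ind := ((max_iff S).1 (h2 S hS)).1
    have := hk k (ind i hi k hk'.2) (ind j hj k hk'.2)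
    rw [hx k hk'.1] at this
    simp at this

end Pool.Agent.Results.MP_59918e_co.Counter
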